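import Pool.Agent.Work.MP_f7ef37_lc.DH.MainC

/-!
# Short Res(t) refutations of the onto functional pigeonhole principle join many pairs of holes

`IsRef t m n k P` (`OP/Stmts3.lean`): `P 0, ..., P k` is a Res(t) refutation of the onto functional
pigeonhole principle with `m` pigeons and `n` holes, with the axioms and rules of the frozen
statement. `size P`: number of literal occurrences. `joins D Y` (`DH/StmtsC.lean`), for a line `D`
and a set `Y` of pigeons: the ordered pairs `(j, j')` of holes, `j ≠ j'`, such that for some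
pigeons `i ≠ i'` outside `Y` the variables `x_ij` and `x_i'j'` occur unnegated in one consistent
conjunction of `D`. `Cons T`: the unnegated variables of `T` have different pigeons and different
holes, and no variable occurs in `T` both unnegated and negated.

First part: a refutation of size at most `exp L`, `log n ≤ L ≤ n ^ (1 / 81)`, `t ≤ L`, any
`m > n`, has a line which joins more than `n ^ 2 / L ^ 170` pairs of holes outside every set of at
most `L` pigeons. Second part: the same for constant `t` and quasi-polynomial size.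
-/

set_option autoImplicit false

open Pool.Agent.Work.MP_f7ef37_lc.OP Pool.Agent.Work.MP_f7ef37_lc.DH

theorem Pool.Agent.Results.MP_f7ef37_lc.DenseHolePairs.result :
    (∃ n0 : ℕ, ∀ n ≥ n0, ∀ m > n, ∀ L : ℕ, Real.log n ≤ L → L ^ 81 ≤ n → ∀ t ≤ L,
      ∀ (k : ℕ) (P : Fin (k + 1) → Finset (Finset (Fin m × Fin n × Bool))),
        IsRef t m n k P → size P ≤ Real.exp L →
        ∃ s, ∀ Y : Finset (Fin m), Y.card ≤ L → n ^ 2 < L ^ 170 * (joins (P s) Y).card) ∧
    ∀ t c : ℕ, ∃ C : ℕ, ∀ᶠ n : ℕ in Filter.atTop, ∀ m > n,
      ∀ (k : ℕ) (P : Fin (k + 1) → Finset (Finset (Fin m × Fin n × Bool))),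
        IsRef t m n k P → size P ≤ Real.exp ((Real.log (n : ℝ)) ^ c) →
        ∃ s, ∀ Y : Finset (Fin m), (Y.card : ℝ) ≤ (Real.log (n : ℝ)) ^ c →
          (n : ℝ) ^ 2 < (Real.log n) ^ C * (joins (P s) Y).card :=
  ⟨dhc, quasic⟩
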