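import Pool.Agent.Work.MP_f7ef37_lc.OP.Main

/-!
# Short Res(t) refutations of the onto functional pigeonhole principle need dense pairs of
# unnegated literals

`IsRef t m n k P` (`OP/Stmts3.lean`): `P 0, ..., P k` is a Res(t) refutation of the onto functional
pigeonhole principle with `m` pigeons and `n` holes, with the axioms and rules of the frozen
statement. `size P`: number of literal occurrences. `TameLine L N D`: there is a set `Y` of at most
`L` pigeons and holes such that for every variable `x_e` and every pigeon or hole `v`, with `e`,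
`v` outside `Y` and `v` not on `e`, at most `N` variables `x_f`, `f` at `v` and outside `Y`, occur
unnegated together with `x_e` in a conjunction of `D`. `bad D`: number of conjunctions of `D`
with at least two unnegated literals (`OP/Final.lean`).

First part: a refutation of size at most `exp L`, `log n ≤ L ≤ n ^ (1 / 80)`, `t ≤ L`, any
`m > n`, has a line which is not `(L, n / L ^ 80)`-tame, and therefore has more than `n / L ^ 81`
conjunctions with at least two unnegated literals. Second part: the same for constant `t` and
quasi-polynomial size.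
-/

set_option autoImplicit false

open Pool.Agent.Work.MP_f7ef37_lc.OP

theorem Pool.Agent.Results.MP_f7ef37_lc.DensePositivePairs.result :
    (∃ n0 : ℕ, ∀ n ≥ n0, ∀ m > n, ∀ L : ℕ, Real.log n ≤ L → L ^ 80 ≤ n → ∀ t ≤ L,
      ∀ (k : ℕ) (P : Fin (k + 1) → Finset (Finset (Fin m × Fin n × Bool))),
        IsRef t m n k P → size P ≤ Real.exp L →
        ∃ s, ¬ TameLine L (n / L ^ 80) (P s) ∧ n < L ^ 81 * bad (P s)) ∧
    ∀ t c : ℕ, ∃ C : ℕ, ∀ᶠ n : ℕ in Filter.atTop, ∀ m > n,
      ∀ (k : ℕ) (P : Fin (k + 1) → Finset (Finset (Fin m × Fin n × Bool))),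
        IsRef t m n k P → size P ≤ Real.exp ((Real.log (n : ℝ)) ^ c) →
        ∃ s, (n : ℝ) < (Real.log n) ^ C * bad (P s) :=
  ⟨count_of final, quasi_of final⟩
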