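import Pool.Agent.Work.MP_f7ef37_lc.WR.Main

/-!
# Res(t) refutations of the onto functional pigeonhole principle with `m ≤ n ^ (1 + 1 / t)`
# pigeons are long

`IsRef t m n k P` (`OP/Stmts3.lean`): `P 0, ..., P k` is a Res(t) refutation of the onto functional
pigeonhole principle with `m` pigeons and `n` holes, with the axioms and rules of the frozen
statement. `size P` (same file): number of literal occurrences.

There is an absolute constant `C` such that for all `t ≥ 1`, `n ≥ 2`, `m > n` and `L ≥ log n` with
`C t ^ 3 L (log n) m ≤ n ^ (1 + 1 / t)` every such refutation has size more than `exp L`. With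
`L = (log n) ^ c` (`c ≥ 1` and `t` constant, `n` large) there are no refutations of size
`exp ((log n) ^ c)` for `n < m ≤ n ^ (1 + 1 / t) / (log n) ^ (c + 2)` (`WR.form2`).
-/

set_option autoImplicit false

open Pool.Agent.Work.MP_f7ef37_lc.OP

theorem Pool.Agent.Results.MP_f7ef37_lc.PigeonRange.result :
    ∃ C : ℝ, 0 < C ∧ ∀ t : ℕ, 1 ≤ t →
      ∀ (n m k : ℕ) (L : ℝ) (P : Fin (k + 1) → Finset (Finset (Fin m × Fin n × Bool))),
        2 ≤ n → n < m → Real.log n ≤ L →
        C * (t : ℝ) ^ 3 * L * Real.log n * m ≤ (n : ℝ) ^ (1 + 1 / (t : ℝ)) →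
        IsRef t m n k P → Real.exp L < size P :=
  Pool.Agent.Work.MP_f7ef37_lc.WR.form1
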