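import Pool.Agent.Work.MP_f7ef37_lc.HL.Main

/-!
# Res(t) refutations of the pigeonhole principle for every number `m ≥ n ^ 2` of pigeons

`HasRefutation t m n S` (in `Pool/Agent/Work/MP_f7ef37_lc/Up/Main.lean`): the pigeonhole principle
with `m` pigeons and `n` holes has a Res(t) refutation with at most `S` literal occurrences, in the
calculus of the frozen statement; only the pigeon axioms and the collision axioms are used, not the
functional and not the onto axioms.

First part: for `n ≥ 16` and all `m ≥ n ^ 2` there is a refutation of size at most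
`m ^ (36 t) * exp (64 t 2 ^ t n (log n) ^ (t - 1) / (log m) ^ t)`. For `t = 1` this is
`m ^ O(1) * 2 ^ O(n / log m)`, so `2 ^ O(n / log n)` for `m = n ^ 2` and `2 ^ O(√n)` for
`m = 2 ^ √n`. Second part, the best number of pigeons: for every constant `t ≥ 1` there is a
function `M n > n` with refutations of size at most
`exp (172 t n ^ (1 / (t + 1)) (log n) ^ ((t - 1) / (t + 1)))`.
-/

set_option autoImplicit false

open Pool.Agent.Work.MP_f7ef37_lc

theorem Pool.Agent.Results.MP_f7ef37_lc.UpperBoundsAllPigeons.result :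
    (∀ t n m : ℕ, 1 ≤ t → 16 ≤ n → n ^ 2 ≤ m →
      HasRefutation t m n ((m : ℝ) ^ (36 * t) *
        Real.exp (64 * t * 2 ^ t * n * Real.log n ^ (t - 1) / Real.log m ^ t))) ∧
    ∀ t : ℕ, 1 ≤ t → ∃ M : ℕ → ℕ, (∀ n, n < M n) ∧ ∀ n, 2 ≤ n →
      HasRefutation t (M n) n
        (Real.exp (172 * t * (n : ℝ) ^ (1 / ((t : ℝ) + 1)) *
          Real.log n ^ (((t : ℝ) - 1) / (t + 1)))) := by
  refine ⟨fun t n m ht hn hm => HL.allM t n m ht hn hm, fun t ht => ?_⟩
  have h : ∀ n : ℕ, ∃ m : ℕ, n < m ∧ (2 ≤ n → HasRefutation t m n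
      (Real.exp (172 * t * (n : ℝ) ^ (1 / ((t : ℝ) + 1)) *
        Real.log n ^ (((t : ℝ) - 1) / (t + 1))))) := by
    intro n
    by_cases hn : 2 ≤ n
    · obtain ⟨m, h1, h2⟩ := HL.bestM t n ht hn
      exact ⟨m, h1, fun _ => h2⟩
    · exact ⟨n + 1, Nat.lt_succ_self n, fun h => absurd h hn⟩
  choose M hM using h
  exact ⟨M, fun n => (hM n).1, fun n hn => (hM n).2 hn⟩
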